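import Mathlib

/-!
# Families of half-lines in affine planes without bounded transversals

For a prime `p` the points are the pairs in `ZMod p × ZMod p`, and the lines `y = a x + b` are
indexed by the pairs `(a, b)`. For every line a random subset is chosen. It is shown by counting
that for every `C`, every large `p` and a suitable choice of these subsets, no set of points meets
all the chosen subsets of size larger than `p / 4` in at least one and at most `C` points.
-/

set_option autoImplicit false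

namespace Pool.Agent.Helper35.Transversal

open Finset

/-- the second moment of the size of a random subset -/
lemma second_moment {α : Type*} [DecidableEq α] (T X : Finset α) :
    ∑ D ∈ X.powerset, (2 * ((D ∩ T).card : ℤ) - ((X ∩ T).card : ℤ)) ^ 2 =
      ((X ∩ T).card : ℤ) * (2 : ℤ) ^ X.card := by
  induction X using Finset.induction_on with
  | empty => simp
  | insert a Y ha ih =>
    rw [Finset.sum_powerset_insert ha, Finset.card_insert_of_notMem ha]
    by_cases haT : a ∈ T
    · have h1 : ((insert a Y) ∩ T).card = (Y ∩ T).card + 1 := by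
        rw [Finset.insert_inter_of_mem haT, Finset.card_insert_of_notMem (by simp [ha])]
      have h2 : ∀ D ∈ Y.powerset, ((insert a D) ∩ T).card = (D ∩ T).card + 1 := by
        intro D hD
        rw [Finset.insert_inter_of_mem haT, Finset.card_insert_of_notMem]
        intro h
        exact ha (Finset.mem_powerset.1 hD (Finset.mem_inter.1 h).1)
      rw [h1, ← Finset.sum_add_distrib]
      have h3 : ∀ D ∈ Y.powerset,
          (2 * ((D ∩ T).card : ℤ) - ((Y ∩ T).card + 1 : ℕ)) ^ 2 +
            (2 * (((insert a D) ∩ T).card : ℤ) - ((Y ∩ T).card + 1 : ℕ)) ^ 2 =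
          2 * (2 * ((D ∩ T).card : ℤ) - (Y ∩ T).card) ^ 2 + 2 := by
        intro D hD
        rw [h2 D hD]
        push_cast
        ring
      rw [Finset.sum_congr rfl h3, Finset.sum_add_distrib, ← Finset.mul_sum, ih]
      simp only [sum_const, card_powerset, nsmul_eq_mul]
      push_cast
      ring
    · have h1 : (insert a Y) ∩ T = Y ∩ T := Finset.insert_inter_of_notMem haT
      have h2 : ∀ D : Finset α, (insert a D) ∩ T = D ∩ T := fun D =>
        Finset.insert_inter_of_notMem haT
      simp only [h1, h2, ih]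
      ring

/-- few subsets have a small intersection with `T` -/
lemma card_small {α : Type*} [DecidableEq α] (T X : Finset α) (hT : T ⊆ X) :
    (X.powerset.filter fun D => 4 * (D ∩ T).card ≤ T.card).card * T.card ≤ 4 * 2 ^ X.card := by
  have h := second_moment T X
  rw [Finset.inter_eq_right.2 hT] at h
  have h1 : ∑ D ∈ X.powerset.filter (fun D => 4 * (D ∩ T).card ≤ T.card),
      ((T.card : ℤ) ^ 2) ≤ 4 * ((T.card : ℤ) * 2 ^ X.card) := by
    rw [← h, Finset.mul_sum]
    refine le_trans (Finset.sum_le_sum (f := fun _ => ((T.card : ℤ) ^ 2))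
      (g := fun D => 4 * (2 * ((D ∩ T).card : ℤ) - T.card) ^ 2) ?_) ?_
    · intro D hD
      have h2 := (Finset.mem_filter.1 hD).2
      have h3 : (4 : ℤ) * ((D ∩ T).card : ℤ) ≤ T.card := by exact_mod_cast h2
      have h4 : (0 : ℤ) ≤ ((D ∩ T).card : ℤ) := by positivity
      nlinarith
    · exact Finset.sum_le_sum_of_subset_of_nonneg (Finset.filter_subset _ _)
        (fun D _ _ => by positivity)
  rw [Finset.sum_const, nsmul_eq_mul] at h1
  rcases Nat.eq_zero_or_pos T.card with h0 | h0
  · rw [h0]; simp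
  · have h2 : (0 : ℤ) < T.card := by exact_mod_cast h0
    have h3 : ((X.powerset.filter fun D => 4 * (D ∩ T).card ≤ T.card).card : ℤ) * T.card ≤
        4 * 2 ^ X.card := by
      by_contra hcon
      push Not at hcon
      nlinarith
    exact_mod_cast h3

/-- half of the subsets have at least half of the elements -/
lemma card_large {α : Type*} [DecidableEq α] (X : Finset α) :
    2 ^ X.card ≤ 2 * (X.powerset.filter fun D => X.card ≤ 2 * D.card).card := by
  have h1 : (X.powerset.filter fun D => ¬ X.card ≤ 2 * D.card).card ≤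
      (X.powerset.filter fun D => X.card ≤ 2 * D.card).card := by
    refine Finset.card_le_card_of_injOn (fun D => X \ D) ?_ ?_
    · intro D hD
      have h2 := Finset.mem_filter.1 (Finset.mem_coe.1 hD)
      have h3 := Finset.mem_powerset.1 h2.1
      have h4 := Finset.card_le_card h3
      refine Finset.mem_coe.2 (Finset.mem_filter.2 ⟨Finset.mem_powerset.2 Finset.sdiff_subset, ?_⟩)
      rw [Finset.card_sdiff_of_subset h3]
      have h5 := h2.2
      omega
    · intro D hD E hE hDE
      have h2 := Finset.mem_powerset.1 (Finset.mem_filter.1 (Finset.mem_coe.1 hD)).1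
      have h3 := Finset.mem_powerset.1 (Finset.mem_filter.1 (Finset.mem_coe.1 hE)).1
      have h4 : X \ (X \ D) = X \ (X \ E) := by
        have : X \ D = X \ E := hDE
        rw [this]
      rwa [Finset.sdiff_sdiff_eq_self h2, Finset.sdiff_sdiff_eq_self h3] at h4
  have h2 := Finset.card_filter_add_card_filter_not (s := X.powerset)
    (fun D => X.card ≤ 2 * D.card)
  rw [Finset.card_powerset] at h2
  omega

/-- the condition for one line: `D` is the chosen subset and `T` is the trace of the transversal -/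
def Good (p C : ℕ) (D T : Finset (ZMod p)) : Prop :=
  p < 4 * D.card → 1 ≤ (D ∩ T).card ∧ (D ∩ T).card ≤ C

instance (p C : ℕ) (D T : Finset (ZMod p)) : Decidable (Good p C D T) := by
  unfold Good; infer_instance

lemma heavy_bound (p C : ℕ) [NeZero p] (hp : 64 ≤ p) (T : Finset (ZMod p))
    (hT : 4 * C + 64 ≤ T.card) :
    8 * (univ.filter fun D => Good p C D T).card ≤ 2 ^ p := by
  have hc : (univ : Finset (ZMod p)).card = p := by rw [Finset.card_univ, ZMod.card]
  have h1 : (univ.filter fun D => Good p C D T) ⊆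
      ((univ : Finset (ZMod p)).powerset.filter fun D => 4 * (D ∩ univ).card ≤
        (univ : Finset (ZMod p)).card) ∪
      ((univ : Finset (ZMod p)).powerset.filter fun D => 4 * (D ∩ T).card ≤ T.card) := by
    intro D hD
    have h2 : Good p C D T := (Finset.mem_filter.1 hD).2
    rw [Finset.mem_union, Finset.mem_filter, Finset.mem_filter, hc, Finset.inter_univ]
    by_cases h3 : p < 4 * D.card
    · right
      refine ⟨by simp, ?_⟩
      have := (h2 h3).2
      omega
    · left
      exact ⟨by simp, by omega⟩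
  have h2 := card_small (univ : Finset (ZMod p)) univ (subset_refl _)
  have h3 := card_small T univ (subset_univ _)
  rw [hc] at h2 h3
  have h4 := (Finset.card_le_card h1).trans (Finset.card_union_le _ _)
  rw [hc] at h4
  set a := (filter (fun D => 4 * (D ∩ univ).card ≤ p) (univ : Finset (ZMod p)).powerset).card
  set b := (filter (fun D => 4 * (D ∩ T).card ≤ T.card) (univ : Finset (ZMod p)).powerset).card
  have h5 : a * 64 ≤ 4 * 2 ^ p := le_trans (Nat.mul_le_mul_left _ hp) h2
  have h6 : b * 64 ≤ 4 * 2 ^ p := le_trans (Nat.mul_le_mul_left _ (by omega)) h3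
  omega

lemma light_bound (p C M : ℕ) [NeZero p] (hp : 2 * M < p) (T : Finset (ZMod p))
    (hT : T.card < M) :
    (univ.filter fun D => Good p C D T).card + 2 ^ (p - M) ≤ 2 ^ p := by
  have hc : (univ : Finset (ZMod p)).card = p := by rw [Finset.card_univ, ZMod.card]
  have h1 := card_large (univ \ T)
  have h2 : (univ \ T).card = p - T.card := by
    rw [Finset.card_sdiff_of_subset (subset_univ _), hc]
  rw [h2] at h1
  have h3 : (univ \ T).powerset.filter (fun D => p - T.card ≤ 2 * D.card) ⊆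
      univ.filter fun D => ¬ Good p C D T := by
    intro D hD
    have h4 := Finset.mem_filter.1 hD
    have h5 := Finset.mem_powerset.1 h4.1
    refine Finset.mem_filter.2 ⟨Finset.mem_univ _, fun hg => ?_⟩
    have h6 := (hg (by omega)).1
    have h7 : D ∩ T = ∅ := by
      ext x
      simp only [Finset.mem_inter, Finset.notMem_empty, iff_false, not_and]
      intro hx
      exact (Finset.mem_sdiff.1 (h5 hx)).2
    rw [h7] at h6
    simp at h6
  have h4 := Finset.card_le_card h3
  have h5 := Finset.card_filter_add_card_filter_not (s := (univ : Finset (Finset (ZMod p))))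
    (fun D => Good p C D T)
  rw [Finset.card_univ, Fintype.card_finset, ZMod.card] at h5
  have h6 : 2 ^ (p - M) * 2 ≤ 2 ^ (p - T.card) := by
    rw [← pow_succ]
    exact Nat.pow_le_pow_right (by norm_num) (by omega)
  omega

/-- the trace of the point set `S` on the line `y = a x + b`, `l = (a, b)` -/
def trace (p : ℕ) [NeZero p] (S : Finset (ZMod p × ZMod p)) (l : ZMod p × ZMod p) :
    Finset (ZMod p) :=
  univ.filter fun x => (x, l.1 * x + l.2) ∈ S

lemma mem_trace (p : ℕ) [NeZero p] (S : Finset (ZMod p × ZMod p)) (l : ZMod p × ZMod p)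
    (x : ZMod p) : x ∈ trace p S l ↔ (x, l.1 * x + l.2) ∈ S := by
  simp [trace]

lemma card_trace (p : ℕ) [NeZero p] (S : Finset (ZMod p × ZMod p)) (l : ZMod p × ZMod p) :
    (trace p S l).card = ∑ P ∈ S, if P.2 = l.1 * P.1 + l.2 then 1 else 0 := by
  rw [← Finset.card_filter]
  refine Finset.card_bij (fun x _ => (x, l.1 * x + l.2)) ?_ ?_ ?_
  · intro x hx
    rw [mem_trace] at hx
    simp [hx]
  · intro x _ y _ h
    exact (Prod.mk.inj h).1
  · rintro ⟨x, y⟩ h
    rw [Finset.mem_filter] at h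
    refine ⟨x, ?_, ?_⟩
    · rw [mem_trace, ← h.2]; exact h.1
    · rw [← h.2]

/-- every point lies on `p` lines -/
lemma lines_through (p : ℕ) [NeZero p] (P : ZMod p × ZMod p) :
    ∑ l : ZMod p × ZMod p, (if P.2 = l.1 * P.1 + l.2 then 1 else 0) = p := by
  rw [Fintype.sum_prod_type]
  have h : ∀ a : ZMod p, ∑ b : ZMod p, (if P.2 = a * P.1 + b then 1 else 0) = 1 := by
    intro a
    have : ∀ b : ZMod p, (P.2 = a * P.1 + b) ↔ P.2 - a * P.1 = b := fun b => by
      constructor <;> intro h <;> linear_combination h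
    simp only [this]
    simp
  simp only [h]
  simp [ZMod.card]

lemma sum_trace (p : ℕ) [NeZero p] (S : Finset (ZMod p × ZMod p)) :
    ∑ l, (trace p S l).card = p * S.card := by
  simp only [card_trace]
  rw [Finset.sum_comm]
  simp only [lines_through]
  simp [mul_comm]

/-- two points lie on at most one line -/
lemma lines_through_two (p : ℕ) [Fact p.Prime] (P Q : ZMod p × ZMod p) (hPQ : P ≠ Q) :
    ∑ l : ZMod p × ZMod p, ((if P.2 = l.1 * P.1 + l.2 then 1 else 0) *
      (if Q.2 = l.1 * Q.1 + l.2 then 1 else 0)) ≤ 1 := by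
  have h : ∀ l : ZMod p × ZMod p, ((if P.2 = l.1 * P.1 + l.2 then 1 else 0) *
      (if Q.2 = l.1 * Q.1 + l.2 then 1 else 0)) =
      if (P.2 = l.1 * P.1 + l.2 ∧ Q.2 = l.1 * Q.1 + l.2) then 1 else 0 := by
    intro l
    by_cases h1 : P.2 = l.1 * P.1 + l.2 <;> by_cases h2 : Q.2 = l.1 * Q.1 + l.2 <;> simp [h1, h2]
  simp only [h]
  rw [← Finset.card_filter, Finset.card_le_one]
  rintro ⟨a, b⟩ h1 ⟨c, d⟩ h2
  simp only [Finset.mem_filter, Finset.mem_univ, true_and] at h1 h2
  have hx : P.1 - Q.1 ≠ 0 := by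
    intro h3
    apply hPQ
    have h4 : P.1 = Q.1 := sub_eq_zero.1 h3
    refine Prod.ext h4 ?_
    rw [h1.1, h1.2, h4]
  have h5 : (a - c) * (P.1 - Q.1) = 0 := by
    linear_combination h1.2 - h1.1 + h2.1 - h2.2
  have h6 : a = c := by
    rcases mul_eq_zero.1 h5 with h7 | h7
    · exact sub_eq_zero.1 h7
    · exact absurd h7 hx
  subst h6
  have h7 : b = d := by linear_combination h2.1 - h1.1
  rw [h7]

lemma sum_trace_sq (p : ℕ) [Fact p.Prime] (S : Finset (ZMod p × ZMod p)) :
    ∑ l, (trace p S l).card ^ 2 ≤ p * S.card + S.card ^ 2 := by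
  have h1 : ∀ l, (trace p S l).card ^ 2 = ∑ P ∈ S, ∑ Q ∈ S,
      ((if P.2 = l.1 * P.1 + l.2 then 1 else 0) * (if Q.2 = l.1 * Q.1 + l.2 then 1 else 0)) := by
    intro l
    rw [card_trace, sq, Finset.sum_mul_sum]
  simp only [h1]
  rw [Finset.sum_comm]
  have h2 : ∀ P ∈ S, ∑ l : ZMod p × ZMod p, ∑ Q ∈ S,
      ((if P.2 = l.1 * P.1 + l.2 then 1 else 0) * (if Q.2 = l.1 * Q.1 + l.2 then 1 else 0)) ≤
      p + S.card := by
    intro P hP
    rw [Finset.sum_comm]
    have h3 : ∀ Q ∈ S, ∑ l : ZMod p × ZMod p,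
      ((if P.2 = l.1 * P.1 + l.2 then 1 else 0) * (if Q.2 = l.1 * Q.1 + l.2 then 1 else 0)) ≤
      (if Q = P then p else 0) + 1 := by
      intro Q _
      by_cases hQ : Q = P
      · subst hQ
        have h4 : ∀ l : ZMod p × ZMod p, ((if Q.2 = l.1 * Q.1 + l.2 then 1 else 0) *
          (if Q.2 = l.1 * Q.1 + l.2 then 1 else 0)) = if Q.2 = l.1 * Q.1 + l.2 then 1 else 0 := by
          intro l
          by_cases h : Q.2 = l.1 * Q.1 + l.2 <;> simp [h]
        simp only [h4, lines_through]
        simp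
      · have := lines_through_two p P Q (fun h => hQ h.symm)
        simp only [if_neg hQ, zero_add]
        exact this
    refine (Finset.sum_le_sum h3).trans ?_
    rw [Finset.sum_add_distrib, Finset.sum_ite_eq' S P, if_pos hP]
    simp
  refine (Finset.sum_le_sum h2).trans ?_
  simp only [sum_const, smul_eq_mul]
  ring_nf
  exact le_refl _

/-- a large set has few light lines -/
lemma few_light (p M : ℕ) [Fact p.Prime] (hM : 64 ≤ M) (S : Finset (ZMod p × ZMod p))
    (hS : 2 * M * p ≤ S.card) :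
    2 * (univ.filter fun l => (trace p S l).card < M).card ≤ p ^ 2 := by
  have hp : 0 < p := (Fact.out : p.Prime).pos
  set s : ℤ := (S.card : ℤ) with hs
  have h1 : (∑ l, ((trace p S l).card : ℤ)) = p * s := by
    rw [hs]; exact_mod_cast sum_trace p S
  have h2 : (∑ l, ((trace p S l).card : ℤ) ^ 2) ≤ p * s + s ^ 2 := by
    rw [hs]; exact_mod_cast sum_trace_sq p S
  have hcard : (Fintype.card (ZMod p × ZMod p) : ℤ) = (p : ℤ) ^ 2 := by
    rw [Fintype.card_prod, ZMod.card]; push_cast; ring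
  have h3 : ∑ l, ((p : ℤ) * (trace p S l).card - s) ^ 2 ≤ (p : ℤ) ^ 3 * s := by
    have h4 : ∀ l, ((p : ℤ) * (trace p S l).card - s) ^ 2 =
        (p : ℤ) ^ 2 * ((trace p S l).card : ℤ) ^ 2 - 2 * p * s * (trace p S l).card + s ^ 2 :=
      fun l => by ring
    simp only [h4]
    rw [Finset.sum_add_distrib, Finset.sum_sub_distrib, ← Finset.mul_sum, ← Finset.mul_sum, h1,
      Finset.sum_const, nsmul_eq_mul, Finset.card_univ, hcard]
    have : (p : ℤ) ^ 2 * ∑ l, ((trace p S l).card : ℤ) ^ 2 ≤ (p : ℤ) ^ 2 * (p * s + s ^ 2) :=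
      mul_le_mul_of_nonneg_left h2 (by positivity)
    nlinarith
  have hSM : (2 : ℤ) * M * p ≤ s := by rw [hs]; exact_mod_cast hS
  have hMz : (64 : ℤ) ≤ M := by exact_mod_cast hM
  have hpz : (0 : ℤ) < p := by exact_mod_cast hp
  have hs0 : 0 < s := by nlinarith
  have h4 : ∑ l ∈ univ.filter (fun l => (trace p S l).card < M), s ^ 2 ≤
      4 * ∑ l, ((p : ℤ) * (trace p S l).card - s) ^ 2 := by
    rw [Finset.mul_sum]
    refine le_trans (Finset.sum_le_sum (f := fun _ => s ^ 2)
      (g := fun l => 4 * ((p : ℤ) * (trace p S l).card - s) ^ 2) ?_) ?_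
    · intro l hl
      have h5 : ((trace p S l).card : ℤ) ≤ M := by
        exact_mod_cast (Finset.mem_filter.1 hl).2.le
      have h6 : 2 * ((p : ℤ) * (trace p S l).card) ≤ s := by nlinarith
      have h7 : (0 : ℤ) ≤ (p : ℤ) * (trace p S l).card := by positivity
      nlinarith
    · exact Finset.sum_le_sum_of_subset_of_nonneg (Finset.filter_subset _ _)
        (fun D _ _ => by positivity)
  rw [Finset.sum_const, nsmul_eq_mul] at h4
  set k : ℤ := ((univ.filter fun l => (trace p S l).card < M).card : ℤ) with hk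
  have hk0 : 0 ≤ k := by positivity
  have h5 : k * s ^ 2 ≤ 4 * ((p : ℤ) ^ 3 * s) := by linarith
  have h6 : k * s ≤ 4 * (p : ℤ) ^ 3 := by
    by_contra hcon
    push Not at hcon
    nlinarith
  have h7 : k * (2 * M * p) ≤ 4 * (p : ℤ) ^ 3 :=
    le_trans (mul_le_mul_of_nonneg_left hSM hk0) h6
  have h8 : k * (2 * 64 * p) ≤ k * (2 * M * p) := by
    apply mul_le_mul_of_nonneg_left _ hk0
    nlinarith
  have h9 : 2 * k ≤ (p : ℤ) ^ 2 := by
    by_contra hcon
    push Not at hcon
    nlinarith [mul_pos hpz (mul_pos hpz hpz)]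
  have h10 : ((2 * (univ.filter fun l => (trace p S l).card < M).card : ℕ) : ℤ) ≤
      ((p ^ 2 : ℕ) : ℤ) := by
    push_cast
    exact h9
  exact_mod_cast h10

/-- the number of small subsets -/
lemma card_small_sets {α : Type*} [Fintype α] [DecidableEq α] (k : ℕ) :
    (univ.filter fun S : Finset α => S.card ≤ k).card ≤ (Fintype.card α + 1) ^ k := by
  have h1 : (univ.filter fun S : Finset α => S.card ≤ k) ⊆
      (univ : Finset (Fin k → Option α)).image
        (fun f => univ.filter fun x => ∃ i, f i = some x) := by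
    intro S hS
    have hS' := (Finset.mem_filter.1 hS).2
    refine Finset.mem_image.2 ⟨fun i => if h : (i : ℕ) < S.card then
      some (S.equivFin.symm ⟨i, h⟩ : α) else none, Finset.mem_univ _, ?_⟩
    ext x
    simp only [Finset.mem_filter, Finset.mem_univ, true_and]
    constructor
    · rintro ⟨i, hi⟩
      by_cases h : (i : ℕ) < S.card
      · rw [dif_pos h, Option.some_inj] at hi
        rw [← hi]
        exact (S.equivFin.symm ⟨i, h⟩).2
      · rw [dif_neg h] at hi
        exact absurd hi (by simp)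
    · intro hx
      have h2 := (S.equivFin ⟨x, hx⟩).2
      refine ⟨⟨(S.equivFin ⟨x, hx⟩ : ℕ), lt_of_lt_of_le h2 hS'⟩, ?_⟩
      rw [dif_pos h2]
      simp
  refine (Finset.card_le_card h1).trans (Finset.card_image_le.trans ?_)
  rw [Finset.card_univ, Fintype.card_fun, Fintype.card_option, Fintype.card_fin]

/-- the final estimate -/
lemma asymptotics (M : ℕ) (r : ℝ) (hr0 : 0 ≤ r) (hr1 : r < 1) :
    ∃ N : ℕ, ∀ n : ℕ, N ≤ n →
      ((n : ℝ) ^ 2 + 1) ^ (2 * M * n) * r ^ (n ^ 2 / 2) < 1 / 2 := by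
  have h1 : Filter.Tendsto (fun m : ℕ => (10 : ℝ) ^ (2 * M) * ((m : ℝ) ^ (4 * M) * r ^ m))
      Filter.atTop (nhds ((10 : ℝ) ^ (2 * M) * 0)) :=
    (tendsto_pow_const_mul_const_pow_of_abs_lt_one (4 * M)
      (by rw [abs_of_nonneg hr0]; exact hr1)).const_mul _
  rw [mul_zero] at h1
  have h2 := h1.eventually (gt_mem_nhds (show (0 : ℝ) < 1 / 2 by norm_num))
  obtain ⟨N, hN⟩ := Filter.eventually_atTop.1 h2
  refine ⟨2 * (N + 1), fun n hn => ?_⟩
  set m := n / 2 with hm
  have hm1 : N + 1 ≤ m := by omega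
  have hn2 : n ≤ 3 * m := by omega
  have h3 := hN m (by omega)
  have hm0 : (1 : ℝ) ≤ m := by
    have : 1 ≤ m := by omega
    exact_mod_cast this
  have h4 : ((n : ℝ) ^ 2 + 1) ≤ 10 * (m : ℝ) ^ 2 := by
    have : (n : ℝ) ≤ 3 * m := by exact_mod_cast hn2
    have h0 : (0 : ℝ) ≤ n := by positivity
    nlinarith
  have h5 : ((n : ℝ) ^ 2 + 1) ^ (2 * M) * r ^ m ≤ 10 ^ (2 * M) * ((m : ℝ) ^ (4 * M) * r ^ m) := by
    rw [← mul_assoc]
    refine mul_le_mul_of_nonneg_right ?_ (by positivity)
    calc ((n : ℝ) ^ 2 + 1) ^ (2 * M) ≤ (10 * (m : ℝ) ^ 2) ^ (2 * M) :=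
          pow_le_pow_left₀ (by positivity) h4 _
      _ = 10 ^ (2 * M) * (m : ℝ) ^ (4 * M) := by
          rw [mul_pow, ← pow_mul]; congr 2; ring
  have h6 : r ^ (n ^ 2 / 2) ≤ (r ^ m) ^ n := by
    rw [← pow_mul]
    apply pow_le_pow_of_le_one hr0 hr1.le
    rw [hm, Nat.le_div_iff_mul_le (by norm_num)]
    have : n / 2 * 2 ≤ n := Nat.div_mul_le_self n 2
    calc n / 2 * n * 2 = (n / 2 * 2) * n := by ring
      _ ≤ n * n := Nat.mul_le_mul_right _ this
      _ = n ^ 2 := by ring
  calc ((n : ℝ) ^ 2 + 1) ^ (2 * M * n) * r ^ (n ^ 2 / 2)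
      ≤ ((n : ℝ) ^ 2 + 1) ^ (2 * M * n) * (r ^ m) ^ n :=
        mul_le_mul_of_nonneg_left h6 (by positivity)
    _ = (((n : ℝ) ^ 2 + 1) ^ (2 * M) * r ^ m) ^ n := by rw [mul_pow, ← pow_mul, ← pow_mul]
    _ ≤ (((n : ℝ) ^ 2 + 1) ^ (2 * M) * r ^ m) ^ 1 := by
        apply pow_le_pow_of_le_one (by positivity) _ (by omega)
        linarith
    _ < 1 / 2 := by rw [pow_one]; linarith

/-- the main counting argument -/
lemma exists_choice (C : ℕ) : ∃ p : ℕ, ∃ _ : Fact p.Prime,
    ∃ D : ZMod p × ZMod p → Finset (ZMod p), ∀ S : Finset (ZMod p × ZMod p),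
      ∃ l, ¬ Good p C (D l) (trace p S l) := by
  set M := 4 * C + 64 with hM
  set r : ℝ := 1 - 1 / 2 ^ M with hr
  have hr1 : r < 1 := by
    rw [hr]; have : (0 : ℝ) < 1 / 2 ^ M := by positivity
    linarith
  have hr0 : 0 ≤ r := by
    rw [hr]
    have : (1 : ℝ) / 2 ^ M ≤ 1 := by
      rw [div_le_one (by positivity)]
      exact one_le_pow₀ (by norm_num)
    linarith
  obtain ⟨N, hN⟩ := asymptotics M r hr0 hr1
  obtain ⟨p, hpN, hp⟩ := Nat.exists_infinite_primes (N + 2 * M + 1)
  have : Fact p.Prime := ⟨hp⟩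
  have : NeZero p := ⟨hp.ne_zero⟩
  refine ⟨p, ⟨hp⟩, ?_⟩
  by_contra hcon
  push Not at hcon
  have hpM : 2 * M < p := by omega
  have hp64 : 64 ≤ p := by omega
  set g : Finset (ZMod p × ZMod p) → ZMod p × ZMod p → ℕ :=
    fun S l => (univ.filter fun D => Good p C D (trace p S l)).card with hg
  have hcardL : Fintype.card (ZMod p × ZMod p) = p ^ 2 := by
    rw [Fintype.card_prod, ZMod.card]; ring
  -- the union bound
  have h1 : (univ : Finset (ZMod p × ZMod p → Finset (ZMod p))) ⊆
      (univ : Finset (Finset (ZMod p × ZMod p))).biUnion fun S =>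
        Fintype.piFinset fun l => univ.filter fun D => Good p C D (trace p S l) := by
    intro D _
    obtain ⟨S, hS⟩ := hcon D
    refine Finset.mem_biUnion.2 ⟨S, Finset.mem_univ _, ?_⟩
    rw [Fintype.mem_piFinset]
    intro l
    exact Finset.mem_filter.2 ⟨Finset.mem_univ _, hS l⟩
  have h2 : (2 ^ p) ^ (p ^ 2) ≤ ∑ S : Finset (ZMod p × ZMod p), ∏ l, g S l := by
    have h3 := (Finset.card_le_card h1).trans Finset.card_biUnion_le
    rw [Finset.card_univ, Fintype.card_fun, Fintype.card_finset, ZMod.card, hcardL] at h3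
    simpa only [Fintype.card_piFinset] using h3
  have hg1 : ∀ S l, g S l ≤ 2 ^ p := by
    intro S l
    refine (Finset.card_le_univ _).trans ?_
    rw [Fintype.card_finset, ZMod.card]
  set N0 : ℝ := ((2 : ℝ) ^ p) ^ (p ^ 2) with hN0
  have hN0pos : 0 < N0 := by positivity
  -- sets with many heavy lines
  have hH : ∀ S, 2 * (univ.filter fun l => (trace p S l).card < M).card ≤ p ^ 2 →
      ((∏ l, g S l : ℕ) : ℝ) ≤ N0 * (1 / 2) ^ (p ^ 2 + 1) := by
    intro S hS
    have h3 : ∀ l, g S l * (if (trace p S l).card < M then 1 else 8) ≤ 2 ^ p := by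
      intro l
      by_cases h : (trace p S l).card < M
      · rw [if_pos h, mul_one]; exact hg1 S l
      · rw [if_neg h, mul_comm]
        exact heavy_bound p C hp64 _ (by omega)
    have h4 : (∏ l, g S l) * 8 ^ (univ.filter fun l => ¬ (trace p S l).card < M).card ≤
        (2 ^ p) ^ (p ^ 2) := by
      have h5 := Finset.prod_le_prod' (s := univ) (fun l (_ : l ∈ univ) => h3 l)
      rw [Finset.prod_mul_distrib, Finset.prod_const, Finset.card_univ, hcardL,
        Finset.prod_ite, Finset.prod_const_one, one_mul, Finset.prod_const] at h5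
      exact h5
    have h5 := Finset.card_filter_add_card_filter_not (s := (univ : Finset (ZMod p × ZMod p)))
      (fun l => (trace p S l).card < M)
    rw [Finset.card_univ, hcardL] at h5
    have h6 : 2 ^ (p ^ 2 + 1) ≤ 8 ^ (univ.filter fun l => ¬ (trace p S l).card < M).card := by
      rw [show (8 : ℕ) = 2 ^ 3 by norm_num, ← pow_mul]
      apply Nat.pow_le_pow_right (by norm_num)
      have : 64 * 64 ≤ p ^ 2 := by nlinarith
      omega
    have h7 : (∏ l, g S l) * 2 ^ (p ^ 2 + 1) ≤ (2 ^ p) ^ (p ^ 2) :=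
      (Nat.mul_le_mul_left _ h6).trans h4
    have h8 : ((∏ l, g S l : ℕ) : ℝ) * 2 ^ (p ^ 2 + 1) ≤ N0 := by
      rw [hN0]; exact_mod_cast h7
    rw [one_div, inv_pow, ← div_eq_mul_inv, le_div_iff₀ (by positivity)]
    exact h8
  -- sets with many light lines
  have hL : ∀ S, p ^ 2 ≤ 2 * (univ.filter fun l => (trace p S l).card < M).card →
      ((∏ l, g S l : ℕ) : ℝ) ≤ N0 * r ^ (p ^ 2 / 2) := by
    intro S hS
    have h3 : ∀ l, (g S l : ℝ) ≤ 2 ^ p * (if (trace p S l).card < M then r else 1) := by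
      intro l
      by_cases h : (trace p S l).card < M
      · rw [if_pos h]
        have h4 := light_bound p C M hpM (trace p S l) h
        have h5 : (g S l : ℝ) + 2 ^ (p - M) ≤ 2 ^ p := by
          rw [hg]; exact_mod_cast h4
        have h6 : (2 : ℝ) ^ (p - M) = 2 ^ p * (1 / 2 ^ M) := by
          rw [pow_sub₀ _ (by norm_num) (by omega)]
          rw [one_div]
        rw [hr]
        rw [h6] at h5
        linarith
      · rw [if_neg h, mul_one]
        exact_mod_cast hg1 S l
    have h4 : ((∏ l, g S l : ℕ) : ℝ) ≤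
        N0 * r ^ (univ.filter fun l => (trace p S l).card < M).card := by
      push_cast
      refine (Finset.prod_le_prod (fun l _ => by positivity) (fun l _ => h3 l)).trans ?_
      rw [Finset.prod_mul_distrib, Finset.prod_const, Finset.card_univ, hcardL,
        Finset.prod_ite, Finset.prod_const_one, mul_one, Finset.prod_const]
    refine h4.trans (mul_le_mul_of_nonneg_left ?_ hN0pos.le)
    apply pow_le_pow_of_le_one hr0 hr1.le
    omega
  -- summation
  have h3 : N0 ≤ ∑ S : Finset (ZMod p × ZMod p), ((∏ l, g S l : ℕ) : ℝ) := by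
    rw [hN0]; exact_mod_cast h2
  have h4 : ∀ S : Finset (ZMod p × ZMod p), ((∏ l, g S l : ℕ) : ℝ) ≤
      N0 * (1 / 2) ^ (p ^ 2 + 1) + (if S.card ≤ 2 * M * p then N0 * r ^ (p ^ 2 / 2) else 0) := by
    intro S
    by_cases hS : 2 * (univ.filter fun l => (trace p S l).card < M).card ≤ p ^ 2
    · refine (hH S hS).trans (le_add_of_nonneg_right ?_)
      split_ifs
      · positivity
      · exact le_refl _
    · have hS' : ¬ 2 * M * p ≤ S.card := fun h => hS (few_light p M (by omega) S h)
      rw [if_pos (by omega)]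
      refine (hL S (by omega)).trans (le_add_of_nonneg_left (by positivity))
  have h5 := h3.trans (Finset.sum_le_sum (fun S _ => h4 S))
  rw [Finset.sum_add_distrib, Finset.sum_const, Finset.card_univ, Fintype.card_finset, hcardL,
    ← Finset.sum_filter, Finset.sum_const, nsmul_eq_mul, nsmul_eq_mul] at h5
  have h6 : (((univ.filter fun S : Finset (ZMod p × ZMod p) => S.card ≤ 2 * M * p).card : ℕ) : ℝ) ≤
      ((p : ℝ) ^ 2 + 1) ^ (2 * M * p) := by
    have h7 := card_small_sets (α := ZMod p × ZMod p) (2 * M * p)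
    rw [hcardL] at h7
    exact_mod_cast h7
  have h7 := hN p (by omega)
  have h8 : ((2 ^ p ^ 2 : ℕ) : ℝ) * (N0 * (1 / 2) ^ (p ^ 2 + 1)) = N0 / 2 := by
    push_cast
    rw [pow_succ]
    have : (2 : ℝ) ^ p ^ 2 * (1 / 2) ^ p ^ 2 = 1 := by
      rw [← mul_pow]; norm_num
    calc (2 : ℝ) ^ p ^ 2 * (N0 * ((1 / 2) ^ p ^ 2 * (1 / 2)))
        = ((2 : ℝ) ^ p ^ 2 * (1 / 2) ^ p ^ 2) * N0 * (1 / 2) := by ring
      _ = N0 / 2 := by rw [this]; ring
  have h9 : (((univ.filter fun S : Finset (ZMod p × ZMod p) => S.card ≤ 2 * M * p).card : ℕ) : ℝ) *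
      (N0 * r ^ (p ^ 2 / 2)) < N0 / 2 := by
    calc _ ≤ ((p : ℝ) ^ 2 + 1) ^ (2 * M * p) * (N0 * r ^ (p ^ 2 / 2)) :=
          mul_le_mul_of_nonneg_right h6 (by positivity)
      _ = N0 * (((p : ℝ) ^ 2 + 1) ^ (2 * M * p) * r ^ (p ^ 2 / 2)) := by ring
      _ < N0 * (1 / 2) := by exact mul_lt_mul_of_pos_left h7 hN0pos
      _ = N0 / 2 := by ring
  rw [h8] at h5
  linarith

/-- For every `C` there is a prime `p` and a family of subsets of `Fin (p ^ 2)`, each with more than
`p / 4` elements and any two with at most one common element, without `C`-bounded transversal. -/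
theorem no_transversal (C : ℕ) : ∃ p : ℕ, ∃ F : Finset (Finset (Fin (p ^ 2))),
    (∀ A ∈ F, p < 4 * A.card) ∧ (∀ A ∈ F, ∀ B ∈ F, A ≠ B → (A ∩ B).card ≤ 1) ∧
    ¬ ∃ S : Finset (Fin (p ^ 2)), ∀ A ∈ F, 1 ≤ (A ∩ S).card ∧ (A ∩ S).card ≤ C := by
  obtain ⟨p, hp, D, hD⟩ := exists_choice C
  have := hp
  have : NeZero p := ⟨hp.out.ne_zero⟩
  have hcard : Fintype.card (ZMod p × ZMod p) = p ^ 2 := by
    rw [Fintype.card_prod, ZMod.card]; ring
  let e : ZMod p × ZMod p ≃ Fin (p ^ 2) := Fintype.equivFinOfCardEq hcard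
  let pt : ZMod p × ZMod p → ZMod p ↪ Fin (p ^ 2) := fun l =>
    ⟨fun x => e (x, l.1 * x + l.2), fun x y h => (Prod.mk.inj (e.injective h)).1⟩
  have hpt : ∀ l x, pt l x = e (x, l.1 * x + l.2) := fun _ _ => rfl
  let A : ZMod p × ZMod p → Finset (Fin (p ^ 2)) := fun l => (D l).map (pt l)
  have hA : ∀ l, (A l).card = (D l).card := fun l => Finset.card_map _
  have hmem : ∀ l x, x ∈ A l ↔ (e.symm x).1 ∈ D l ∧
      (e.symm x).2 = l.1 * (e.symm x).1 + l.2 := by
    intro l x
    constructor
    · intro h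
      obtain ⟨y, hy, rfl⟩ := Finset.mem_map.1 h
      rw [hpt, Equiv.symm_apply_apply]
      exact ⟨hy, rfl⟩
    · rintro ⟨h1, h2⟩
      refine Finset.mem_map.2 ⟨(e.symm x).1, h1, ?_⟩
      rw [hpt, ← h2, Prod.mk.eta, Equiv.apply_symm_apply]
  refine ⟨p, (univ.filter fun l => p < 4 * (D l).card).image A, ?_, ?_, ?_⟩
  · intro B hB
    obtain ⟨l, hl, rfl⟩ := Finset.mem_image.1 hB
    rw [hA]
    exact (Finset.mem_filter.1 hl).2
  · intro B hB B' hB' hne
    obtain ⟨l, hl, rfl⟩ := Finset.mem_image.1 hB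
    obtain ⟨l', hl', rfl⟩ := Finset.mem_image.1 hB'
    have hll : l ≠ l' := fun h => hne (by rw [h])
    rw [Finset.card_le_one]
    intro x hx y hy
    rw [Finset.mem_inter, hmem, hmem] at hx hy
    by_contra hxy
    apply hll
    have h1 := hx.1.2
    have h2 := hx.2.2
    have h3 := hy.1.2
    have h4 := hy.2.2
    have hx' : (e.symm x).1 - (e.symm y).1 ≠ 0 := by
      intro h5
      apply hxy
      have h6 : (e.symm x).1 = (e.symm y).1 := sub_eq_zero.1 h5
      apply e.symm.injective
      refine Prod.ext h6 ?_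
      rw [h1, h3, h6]
    have h5 : (l.1 - l'.1) * ((e.symm x).1 - (e.symm y).1) = 0 := by
      linear_combination h2 - h1 + h3 - h4
    have h6 : l.1 = l'.1 := by
      rcases mul_eq_zero.1 h5 with h7 | h7
      · exact sub_eq_zero.1 h7
      · exact absurd h7 hx'
    refine Prod.ext h6 ?_
    rw [h6] at h1
    linear_combination h2 - h1
  · rintro ⟨S, hS⟩
    obtain ⟨l, hl⟩ := hD (S.map e.symm.toEmbedding)
    apply hl
    intro hl'
    have h1 := hS (A l) (Finset.mem_image.2 ⟨l, Finset.mem_filter.2 ⟨Finset.mem_univ _, hl'⟩, rfl⟩)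
    have h2 : (A l ∩ S).card = (D l ∩ trace p (S.map e.symm.toEmbedding) l).card := by
      symm
      rw [← Finset.card_map (pt l)]
      congr 1
      ext x
      rw [Finset.mem_inter, hmem]
      constructor
      · intro h
        obtain ⟨y, hy, rfl⟩ := Finset.mem_map.1 h
        rw [Finset.mem_inter, mem_trace] at hy
        obtain ⟨z, hz, hz'⟩ := Finset.mem_map.1 hy.2
        refine ⟨by rw [hpt, Equiv.symm_apply_apply]; exact ⟨hy.1, rfl⟩, ?_⟩
        have h3 : z = e (y, l.1 * y + l.2) := by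
          rw [← hz']; simp
        rw [h3] at hz
        exact hz
      · rintro ⟨⟨h3, h4⟩, h5⟩
        refine Finset.mem_map.2 ⟨(e.symm x).1, ?_, ?_⟩
        · rw [Finset.mem_inter, mem_trace]
          refine ⟨h3, Finset.mem_map.2 ⟨x, h5, ?_⟩⟩
          rw [← h4]
          rfl
        · rw [hpt, ← h4, Prod.mk.eta, Equiv.apply_symm_apply]
    rw [h2] at h1
    exact h1

end Pool.Agent.Helper35.Transversal
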